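import Mathlib
import Pool.Agent.Lib.MP_562b47_mp.WindowB
import Pool.Agent.Lib.MP_562b47_mp.ED.QTime

/-!
The Anderson model on `ℤ^d`, `d ≥ 2`, with uniformly distributed potential, at an arbitrary disorder
strength `c > 0`: the transport is at most diffusive, at every energy and at all times.

In expectation: the mean square displacement `M(t)` is at most `D t` for all `t ≥ 0`, and the second
moment of the Green function at the energy `E` and the distance `η` from the real axis is at most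
`D / (η² (1 + E²))` for all real `E` and `0 < η ≤ 1`.

Almost surely, for every finitely supported initial state: the same bounds up to powers of the
logarithm, for the Green function at every fixed energy and for the second moment at every time.

The Hilbert space `ℓ²(ℤ^d)` is given as a complex Hilbert space `V` with a Hilbert basis
`(b j)`, `j ∈ ℤ^d` (for `V = ℓ²(ℤ^d)`: `b j` is the unit vector `δ_j`).
-/

open MeasureTheory Complex
open scoped InnerProductSpace ENNReal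

namespace Pool.Agent.Results.MP_562b47_mp.AtMostDiffusive

/-- The uniform distribution on `[-c, c]`: density `1 / (2c)` with respect to Lebesgue measure. -/
noncomputable def unifLaw (c : ℝ) : Measure ℝ :=
  (ENNReal.ofReal (2 * c))⁻¹ • volume.restrict (Set.Icc (-c) c)

/-- The law of the random potential `(ω_j)`, `j ∈ ℤ^d`: independent coordinates, each uniformly
distributed on `[-c, c]` (product measure on `ℝ^(ℤ^d)`). -/
noncomputable def potLaw (d : ℕ) (c : ℝ) : Measure ((Fin d → ℤ) → ℝ) :=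
  Measure.infinitePi fun _ => unifLaw c

/-- `H` is the operator `Δ_ω` on the Hilbert space with orthonormal basis `b j = δ_j`, `j ∈ ℤ^d`:
`H δ_j = - ∑_{|n| = 1} (δ_{j + n} - δ_j) + ω_j δ_j`, where the sum runs over the `2 d` unit vectors
`n = ± e_i` (`e_i = Pi.single i 1`, `i < d`).  This determines `H` uniquely. -/
def IsDelta {d : ℕ} {V : Type*} [NormedAddCommGroup V] [InnerProductSpace ℂ V]
    (b : HilbertBasis (Fin d → ℤ) ℂ V) (ω : (Fin d → ℤ) → ℝ) (H : V →L[ℂ] V) : Prop :=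
  ∀ j : Fin d → ℤ, H (b j) = -∑ i : Fin d, ((b (j + Pi.single i 1) - b j)
    + (b (j - Pi.single i 1) - b j)) + (ω j : ℂ) • b j

/-- The second moment `∑_x |x|² |⟨δ_x, φ⟩|²` of the vector `φ`, with the Euclidean norm `|x|`. -/
noncomputable def secondMoment {d : ℕ} {V : Type*} [NormedAddCommGroup V]
    [InnerProductSpace ℂ V] (b : HilbertBasis (Fin d → ℤ) ℂ V) (φ : V) : ℝ≥0∞ :=
  ∑' x : Fin d → ℤ, ENNReal.ofReal (∑ i, (x i : ℝ) ^ 2) * ‖⟪b x, φ⟫_ℂ‖ₑ ^ 2

/-- The state `e^{-itH} ψ` at time `t` of the particle which starts in the state `ψ`. -/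
noncomputable def evolved {V : Type*} [NormedAddCommGroup V] [InnerProductSpace ℂ V]
    [CompleteSpace V] (H : V →L[ℂ] V) (t : ℝ) (ψ : V) : V :=
  NormedSpace.exp ((-(t : ℂ) * I) • H) ψ

/-- Let `d ≥ 2` and `c > 0`.  There is a constant `D = D(d, c)` such that for every Hilbert space with
a Hilbert basis `b j = δ_j`, `j ∈ ℤ^d`, the family `Δ_ω` exists (almost surely, as bounded self-adjoint
operators), and every such family has the following properties.

In expectation: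

(1) `E ∑_x |x|² |⟨δ_x, (E₀ + iη - Δ_ω)⁻¹ δ_0⟩|² ≤ D / (η² (1 + E₀²))` for all real `E₀`, `0 < η ≤ 1`;

(2) `E ∑_x |x|² |⟨δ_x, e^{-itΔ_ω} δ_0⟩|² ≤ D t` for all `t ≥ 0`.

Almost surely:

(3) for almost every `ω`, every finitely supported `ψ` and every `ε > 0` there is `C` with
`∑_x |x|² |⟨δ_x, e^{-itΔ_ω} ψ⟩|² ≤ C t (1 + log t)^(3+ε)` at every time `t ≥ 1`;

(4) for almost every `ω`, every finitely supported `ψ` and every `ε > 0` there is `C` with
`(1/T) ∫_0^T ∑_x |x|² |⟨δ_x, e^{-itΔ_ω} ψ⟩|² dt ≤ C T (1 + log T)^(1+ε)` for all `T ≥ 1`;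

(5) for every real `E₀`, almost every `ω`, every finitely supported `ψ` and every `ε > 0` there is `C`
with `∑_x |x|² |⟨δ_x, (E₀ + iη - Δ_ω)⁻¹ ψ⟩|² ≤ C (log (1/η))^(1+ε) / η²` for all `0 < η ≤ 1/2`. -/
theorem result.{u} (d : ℕ) (hd : 2 ≤ d) (c : ℝ) (hc : 0 < c) :
    ∃ D : ℝ, ∀ (V : Type u) [NormedAddCommGroup V] [InnerProductSpace ℂ V] [CompleteSpace V]
      (b : HilbertBasis (Fin d → ℤ) ℂ V),
    (∃ Δ : ((Fin d → ℤ) → ℝ) → (V →L[ℂ] V),
      ∀ᵐ ω ∂(potLaw d c), IsDelta b ω (Δ ω) ∧ IsSelfAdjoint (Δ ω)) ∧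
    ∀ Δ : ((Fin d → ℤ) → ℝ) → (V →L[ℂ] V), (∀ᵐ ω ∂(potLaw d c), IsDelta b ω (Δ ω)) →
      (∀ E η : ℝ, 0 < η → η ≤ 1 →
        ∫⁻ ω, secondMoment b (resolvent (Δ ω) (E + η * I) (b 0)) ∂(potLaw d c) ≤
          ENNReal.ofReal (D / (η ^ 2 * (1 + E ^ 2)))) ∧
      (∀ t : ℝ, 0 ≤ t →
        ∫⁻ ω, secondMoment b (evolved (Δ ω) t (b 0)) ∂(potLaw d c) ≤ ENNReal.ofReal (D * t)) ∧
      (∀ᵐ ω ∂(potLaw d c), ∀ ψ ∈ Submodule.span ℂ (Set.range b), ∀ ε : ℝ, 0 < ε →
        ∃ C : ℝ, ∀ t : ℝ, 1 ≤ t →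
          secondMoment b (evolved (Δ ω) t ψ) ≤
            ENNReal.ofReal (C * (t * (1 + Real.log t) ^ (3 + ε)))) ∧
      (∀ᵐ ω ∂(potLaw d c), ∀ ψ ∈ Submodule.span ℂ (Set.range b), ∀ ε : ℝ, 0 < ε →
        ∃ C : ℝ, ∀ T : ℝ, 1 ≤ T →
          ENNReal.ofReal (1 / T) * ∫⁻ t in Set.Ioc 0 T, secondMoment b (evolved (Δ ω) t ψ) ≤
            ENNReal.ofReal (C * (T * (1 + Real.log T) ^ (1 + ε)))) ∧
      (∀ E : ℝ, ∀ᵐ ω ∂(potLaw d c), ∀ ψ ∈ Submodule.span ℂ (Set.range b), ∀ ε : ℝ, 0 < ε →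
        ∃ C : ℝ, ∀ η : ℝ, 0 < η → η ≤ 1 / 2 →
          secondMoment b (resolvent (Δ ω) (E + η * I) ψ) ≤
            ENNReal.ofReal (C * (Real.log (1 / η) ^ (1 + ε) / η ^ 2))) := by
  obtain ⟨D, hD, hM⟩ := Pool.Agent.Lib.MP_562b47_mp.ED.M_le hc hd
  obtain ⟨K, hK, hG⟩ := Pool.Agent.Lib.MP_562b47_mp.ED.de_all hc hd
  refine ⟨max D K, ?_⟩
  intro V _ _ _ b
  have hIcc := Pool.Agent.Lib.MP_562b47_mp.ae_mem_Icc (d := d) hc
  refine ⟨⟨Pool.Agent.Lib.MP_562b47_mp.HB b c, ?_⟩, fun Δ hΔ => ?_⟩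
  · filter_upwards [hIcc] with ω hω
    exact ⟨Pool.Agent.Lib.MP_562b47_mp.HB_basis' b hω,
      Pool.Agent.Lib.MP_562b47_mp.isSelfAdjoint_HB b hc ω⟩
  have hae : ∀ᵐ ω ∂(potLaw d c), Δ ω = Pool.Agent.Lib.MP_562b47_mp.HB b c ω := by
    filter_upwards [hIcc, hΔ] with ω hω h2
    refine Pool.Agent.Lib.MP_562b47_mp.eq_HB_of_basis b fun j => ?_
    rw [Pool.Agent.Lib.MP_562b47_mp.HB_basis' b hω]
    exact h2 j
  have hneg : ∀ a : V →L[ℂ] V, Ring.inverse (-a) = -Ring.inverse a := by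
    intro a
    by_cases h : IsUnit a
    · obtain ⟨u, rfl⟩ := h
      rw [← Units.val_neg, Ring.inverse_unit, Ring.inverse_unit]
      simp
    · rw [Ring.inverse_non_unit _ h,
        Ring.inverse_non_unit _ (fun h2 => h (by simpa using h2.neg)), neg_zero]
  have hresv : ∀ (ω : (Fin d → ℤ) → ℝ) (z : ℂ), resolvent (Pool.Agent.Lib.MP_562b47_mp.HB b c ω) z =
      -Pool.Agent.Lib.MP_562b47_mp.Rv (Pool.Agent.Lib.MP_562b47_mp.HB b c ω) z := by
    intro ω z
    unfold resolvent Pool.Agent.Lib.MP_562b47_mp.Rv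
    rw [← neg_sub, hneg]
  have hzz : ∀ E η : ℝ, (⟨E, η⟩ : ℂ) = (E : ℂ) + η * I := fun E η => by
    apply Complex.ext <;> simp
  refine ⟨fun E η hη hη1 => ?_, fun t ht => ?_, ?_, ?_, fun E => ?_⟩
  · have hz : 0 < ((E : ℂ) + η * I).im := by simpa using hη
    have hmom : ∫⁻ ω, secondMoment b (resolvent (Δ ω) (E + η * I) (b 0)) ∂(potLaw d c) =
        Pool.Agent.Lib.MP_562b47_mp.QL.DE d c ⟨E, η⟩ := by
      unfold Pool.Agent.Lib.MP_562b47_mp.QL.DE
      refine lintegral_congr_ae ?_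
      filter_upwards [hae] with ω hω
      rw [hω, hzz]
      unfold secondMoment
      refine tsum_congr fun x => ?_
      rw [(Pool.Agent.Lib.MP_562b47_mp.model (d := d) hc).Gr_symm ω hz 0 x, hresv,
        _root_.neg_apply, inner_neg_right, enorm_neg,
        Pool.Agent.Lib.MP_562b47_mp.inner_Rv_HB b hc ω hz.ne']
      rfl
    rw [hmom]
    refine (hG E η hη hη1).trans (ENNReal.ofReal_le_ofReal ?_)
    have : 0 < η ^ 2 * (1 + E ^ 2) := by positivity
    exact div_le_div_of_nonneg_right (le_max_right _ _) this.le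
  · have hmsd : ∫⁻ ω, secondMoment b (evolved (Δ ω) t (b 0)) ∂(potLaw d c) =
        Pool.Agent.Lib.MP_562b47_mp.ED.MM d c t := by
      refine lintegral_congr_ae ?_
      filter_upwards [hae] with ω hω
      rw [hω]
      unfold secondMoment evolved
      refine tsum_congr fun x => ?_
      rw [← b.repr.inner_map_map, Pool.Agent.Lib.MP_562b47_mp.repr_exp,
        Pool.Agent.Lib.MP_562b47_mp.repr_b, Pool.Agent.Lib.MP_562b47_mp.repr_b]
      rfl
    rw [hmsd]
    exact (hM t ht).trans (ENNReal.ofReal_le_ofReal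
      (mul_le_mul_of_nonneg_right (le_max_left _ _) ht))
  · have h1 := Pool.Agent.Lib.MP_562b47_mp.ED.q_pt_all (d := d) b hc hD hM
    filter_upwards [hae, h1] with ω hω h2 ψ hψ ε hε
    obtain ⟨C, hC⟩ := h2 ψ hψ ε hε
    refine ⟨C, fun t ht => ?_⟩
    rw [hω]
    exact hC t ht
  · have h1 := Pool.Agent.Lib.MP_562b47_mp.ED.q_time_all (d := d) b hc hM
    filter_upwards [hae, h1] with ω hω h2 ψ hψ ε hε
    obtain ⟨C, hC⟩ := h2 ψ hψ ε hε
    refine ⟨C, fun T hT => ?_⟩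
    have hT0 : 0 < T := lt_of_lt_of_le one_pos hT
    rw [hω]
    refine (mul_le_mul_right (hC T hT) (ENNReal.ofReal (1 / T))).trans (le_of_eq ?_)
    rw [← ENNReal.ofReal_mul (by positivity)]
    congr 1
    field_simp
  · have h1 := Pool.Agent.Lib.MP_562b47_mp.ED.q_eta_all (d := d) b hc (K := K) E hK (fun z hz hz1 =>
      (hG z.re z.im hz hz1).trans (ENNReal.ofReal_le_ofReal
        (div_le_div_of_nonneg_left hK (by positivity)
          (le_mul_of_one_le_right (by positivity) (by nlinarith [sq_nonneg z.re])))))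
    filter_upwards [hae, h1] with ω hω h2 ψ hψ ε hε
    obtain ⟨C, hC⟩ := h2 ψ hψ ε hε
    refine ⟨C, fun η hη hη2 => ?_⟩
    refine le_trans (le_of_eq ?_) (hC η hη hη2)
    rw [hω, hzz]
    unfold secondMoment
    refine tsum_congr fun x => ?_
    rw [hresv, _root_.neg_apply, inner_neg_right, enorm_neg]

end Pool.Agent.Results.MP_562b47_mp.AtMostDiffusive
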