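import Mathlib
import Pool.Agent.Lib.MP_562b47_mp.Window
import Pool.Agent.Lib.MP_562b47_mp.WindowB
import Pool.Agent.Lib.MP_562b47_mp.AS.Fin
import Pool.Agent.Lib.MP_562b47_mp.CH.Box

/-!
The Anderson model on `ℤ²` with uniformly distributed potential: for every disorder strength `c > 0`
the operator `Δ_ω` has almost surely purely singular spectrum.
-/

open MeasureTheory Complex
open scoped InnerProductSpace

namespace Pool.Agent.Results.MP_562b47_mp.PlaneSingular

/-- The uniform distribution on `[-c, c]`: density `1 / (2c)` with respect to Lebesgue measure. -/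
noncomputable def unifLaw (c : ℝ) : Measure ℝ :=
  (ENNReal.ofReal (2 * c))⁻¹ • volume.restrict (Set.Icc (-c) c)

/-- The law of the random potential `(ω_j)`, `j ∈ ℤ²`: independent coordinates, each uniformly
distributed on `[-c, c]` (product measure on `ℝ^(ℤ²)`). -/
noncomputable def potLaw (c : ℝ) : Measure ((Fin 2 → ℤ) → ℝ) :=
  Measure.infinitePi fun _ => unifLaw c

/-- The complex Hilbert space `ℓ²(ℤ²)`. -/
abbrev ellTwo : Type := lp (fun _ : Fin 2 → ℤ => ℂ) 2

/-- `H` is the operator `Δ_ω` on `ℓ²(ℤ²)`: for all `u` and `j`,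
`(H u)(j) = - ∑_{|n| = 1} (u(j + n) - u(j)) + ω_j u(j)`, where the sum runs over the four unit
vectors `n = ± e_i` (`e_i = Pi.single i 1`, `i = 0, 1`).  This determines `H` uniquely. -/
def IsDelta (ω : (Fin 2 → ℤ) → ℝ) (H : ellTwo →L[ℂ] ellTwo) : Prop :=
  ∀ (u : ellTwo) (j : Fin 2 → ℤ), H u j = -∑ i : Fin 2, ((u (j + Pi.single i 1) - u j)
    + (u (j - Pi.single i 1) - u j)) + (ω j : ℂ) * u j

/-- `μ` is the spectral measure of the vector `u` for the bounded self-adjoint operator `H`: it is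
a finite Borel measure on `ℝ` and `∫ f dμ = ⟨u, f(H) u⟩` for all bounded continuous `f : ℝ → ℝ`.
This determines `μ` uniquely. -/
def IsSpectralMeasure {V : Type*} [NormedAddCommGroup V] [InnerProductSpace ℂ V] [CompleteSpace V]
    (H : V →L[ℂ] V) (u : V) (μ : Measure ℝ) : Prop :=
  IsFiniteMeasure μ ∧
    ∀ f : BoundedContinuousFunction ℝ ℝ, ((∫ x, f x ∂μ : ℝ) : ℂ) = ⟪u, cfc (⇑f) H u⟫_ℂ

/-- `H` has purely singular spectrum: every vector has a spectral measure, and it is singular with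
respect to Lebesgue measure. -/
def PurelySingular {V : Type*} [NormedAddCommGroup V] [InnerProductSpace ℂ V] [CompleteSpace V]
    (H : V →L[ℂ] V) : Prop :=
  ∀ u : V, ∃ μ : Measure ℝ, IsSpectralMeasure H u μ ∧ μ ⟂ₘ volume

/-- For every `c > 0` and almost every `ω` (independent coordinates, uniform on `[-c, c]`), the
operator `Δ_ω` on `ℓ²(ℤ²)` is bounded and self-adjoint and has purely singular spectrum. -/
theorem result (c : ℝ) (hc : 0 < c) :
    ∀ᵐ ω ∂(potLaw c), ∃ H : ellTwo →L[ℂ] ellTwo,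
      IsDelta ω H ∧ IsSelfAdjoint H ∧ PurelySingular H := by
  have hpl : ∀ᵐ ω ∂(Pool.Agent.Lib.MP_562b47_mp.PP (Fin 2 → ℤ) c), ∀ μ : Measure ℝ,
      IsFiniteMeasure μ → Pool.Agent.Lib.MP_562b47_mp.IsSpec
        (Pool.Agent.Lib.MP_562b47_mp.HH 2 c ω) (Pool.Agent.Lib.MP_562b47_mp.ee 2 0) μ →
      μ ⟂ₘ volume := Pool.Agent.Lib.MP_562b47_mp.ASF.sing_of_local hc
    (Pool.Agent.Lib.MP_562b47_mp.ASF.local_of_box hc fun Es hEs =>
      Pool.Agent.Lib.MP_562b47_mp.CH.box hc hEs.1 hEs.2)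
  filter_upwards [Pool.Agent.Lib.MP_562b47_mp.ae_mem_Icc (d := 2) hc,
    (Pool.Agent.Lib.MP_562b47_mp.model hc).ae_singV
      (Pool.Agent.Lib.MP_562b47_mp.shiftCov hc) hpl] with ω hω hs
  refine ⟨Pool.Agent.Lib.MP_562b47_mp.HH 2 c ω, fun u j => ?_,
    (Pool.Agent.Lib.MP_562b47_mp.model hc).sa ω, fun u => ?_⟩
  · rw [Pool.Agent.Lib.MP_562b47_mp.HH_apply, Pool.Agent.Lib.MP_562b47_mp.clp_of_mem (hω j)]
  · obtain ⟨μ, hfin, hμ⟩ :=
      Pool.Agent.Lib.MP_562b47_mp.exists_isSpec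
        ((Pool.Agent.Lib.MP_562b47_mp.model hc).sa ω) u
    exact ⟨μ, ⟨hfin, hμ⟩, (hs u).sing ((Pool.Agent.Lib.MP_562b47_mp.model hc).sa ω) hμ⟩

end Pool.Agent.Results.MP_562b47_mp.PlaneSingular
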