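import Mathlib
import Pool.Agent.Lib.MP_562b47_mp.SYG.Final
import Pool.Agent.Lib.MP_562b47_mp.SYG.Comp

/-!
The Anderson model with uniformly distributed potential on `ℤ² × G`, where `G` is an arbitrary finite
connected graph carrying an arbitrary additional potential `W`: for every disorder strength `c > 0` the
spectrum is almost surely purely singular.

If `G` is a finite connected subset `K` of `ℤ^k` and `W f` is the number of neighbours of `f` in
`ℤ^k` which are not in `K`, the operator is the compression of the Anderson operator of `ℤ^(2+k)` to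
`ℓ²(ℤ² × K)`: see `isCompression_iff`.
-/

open MeasureTheory Complex
open scoped InnerProductSpace

namespace Pool.Agent.Results.MP_562b47_mp.PlaneTimesGraph

/-- The uniform distribution on `[-c, c]`: density `1 / (2c)` with respect to Lebesgue measure. -/
noncomputable def unifLaw (c : ℝ) : Measure ℝ :=
  (ENNReal.ofReal (2 * c))⁻¹ • volume.restrict (Set.Icc (-c) c)

/-- The law of the random potential `(ω_(x,f))`, `x ∈ ℤ²`, `f` a vertex of the graph: independent
coordinates, each uniformly distributed on `[-c, c]`. -/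
noncomputable def potLaw (V : Type) (c : ℝ) : Measure ((Fin 2 → ℤ) × V → ℝ) :=
  Measure.infinitePi fun _ => unifLaw c

/-- The complex Hilbert space `ℓ²(ℤ² × V)`. -/
abbrev ellTwo (V : Type) : Type := lp (fun _ : (Fin 2 → ℤ) × V => ℂ) 2

/-- `∑_{|n| = 1} (u(x + n, f) - u(x, f))`, the sum over the four unit vectors `n = ± e_i` of `ℤ²`. -/
noncomputable def planeLap {V : Type} (u : (Fin 2 → ℤ) × V → ℂ) (x : Fin 2 → ℤ) (f : V) : ℂ :=
  ∑ i : Fin 2, ((u (x + Pi.single i 1, f) - u (x, f)) + (u (x - Pi.single i 1, f) - u (x, f)))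

/-- `∑_{g ~ f} (u(x, g) - u(x, f))`, the sum over the neighbours `g` of `f` in the graph `G`. -/
noncomputable def graphLap {V : Type} [Fintype V] (G : SimpleGraph V) [DecidableRel G.Adj]
    (u : (Fin 2 → ℤ) × V → ℂ) (x : Fin 2 → ℤ) (f : V) : ℂ :=
  ∑ g : V, if G.Adj f g then u (x, g) - u (x, f) else 0

/-- `H` is the Anderson operator on `ℓ²(ℤ² × G)` with the additional potential `W`: for all `u`, all
`x ∈ ℤ²` and all vertices `f` of `G`, `(H u)(x, f)` is
`- ∑_{|n| = 1} (u(x + n, f) - u(x, f)) - ∑_{g ~ f} (u(x, g) - u(x, f)) + (W_f + ω_(x,f)) u(x, f)`.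
This determines `H` uniquely. -/
def IsAnderson {V : Type} [Fintype V] (G : SimpleGraph V) [DecidableRel G.Adj] (W : V → ℝ)
    (ω : (Fin 2 → ℤ) × V → ℝ) (H : ellTwo V →L[ℂ] ellTwo V) : Prop :=
  ∀ (u : ellTwo V) (x : Fin 2 → ℤ) (f : V),
    H u (x, f) = -planeLap u x f - graphLap G u x f + (W f + ω (x, f) : ℂ) * u (x, f)

/-- `μ` is the spectral measure of the vector `u` for the bounded self-adjoint operator `H`: it is
a finite Borel measure on `ℝ` and `∫ f dμ = ⟨u, f(H) u⟩` for all bounded continuous `f : ℝ → ℝ`.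
This determines `μ` uniquely. -/
def IsSpectralMeasure {E : Type*} [NormedAddCommGroup E] [InnerProductSpace ℂ E] [CompleteSpace E]
    (H : E →L[ℂ] E) (u : E) (μ : Measure ℝ) : Prop :=
  IsFiniteMeasure μ ∧
    ∀ f : BoundedContinuousFunction ℝ ℝ, ((∫ x, f x ∂μ : ℝ) : ℂ) = ⟪u, cfc (⇑f) H u⟫_ℂ

/-- `H` has purely singular spectrum: every vector has a spectral measure, and it is singular with
respect to Lebesgue measure. -/
def PurelySingular {E : Type*} [NormedAddCommGroup E] [InnerProductSpace ℂ E] [CompleteSpace E]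
    (H : E →L[ℂ] E) : Prop :=
  ∀ u : E, ∃ μ : Measure ℝ, IsSpectralMeasure H u μ ∧ μ ⟂ₘ volume

section compression

variable {k : ℕ}

/-- The nearest-neighbour graph of a finite set `K ⊂ ℤ^k`. -/
def nearest (K : Finset (Fin k → ℤ)) : SimpleGraph K where
  Adj f g := ∃ i, g.1 = f.1 + Pi.single i 1 ∨ g.1 = f.1 - Pi.single i 1
  symm := (Pool.Agent.Lib.MP_562b47_mp.SYG.nn K).symm
  loopless := (Pool.Agent.Lib.MP_562b47_mp.SYG.nn K).loopless

/-- The number of neighbours of `f ∈ K` in `ℤ^k` which are not in `K`. -/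
noncomputable def missing (K : Finset (Fin k → ℤ)) (f : K) : ℝ :=
  ∑ i : Fin k, ((if f.1 + Pi.single i 1 ∈ K then 0 else 1) +
    (if f.1 - Pi.single i 1 ∈ K then 0 else 1))

open Classical in
/-- The extension by zero to `ℤ^(2+k)` of a function on `ℤ² × K`. -/
noncomputable def ext {K : Finset (Fin k → ℤ)} (u : (Fin 2 → ℤ) × K → ℂ)
    (j : Fin (2 + k) → ℤ) : ℂ :=
  if h : (fun i => j (Fin.natAdd 2 i)) ∈ K then u (fun i => j (Fin.castAdd k i), ⟨_, h⟩) else 0

/-- `H` is the compression to `ℓ²(ℤ² × K)` of the Anderson operator of `ℤ^(2+k)`: for all `u` and all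
`j = (x, f)` in `ℤ² × K`, `(H u)(j) = - ∑_{|n| = 1} (u(j + n) - u(j)) + ω_j u(j)`, where the sum runs
over all `2(2+k)` unit vectors `n` of `ℤ^(2+k)` and `u` is extended by zero. -/
def IsCompression (K : Finset (Fin k → ℤ)) (ω : (Fin 2 → ℤ) × K → ℝ)
    (H : ellTwo K →L[ℂ] ellTwo K) : Prop :=
  ∀ (u : ellTwo K) (x : Fin 2 → ℤ) (f : K), H u (x, f) =
    -∑ i : Fin (2 + k), ((ext u (Fin.append x f.1 + Pi.single i 1) - u (x, f)) +
      (ext u (Fin.append x f.1 - Pi.single i 1) - u (x, f)))
    + (ω (x, f) : ℂ) * u (x, f)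

open Classical in
/-- The compression of the Anderson operator of `ℤ^(2+k)` to `ℤ² × K` is the Anderson operator of
`ℤ² × G`, `G` the nearest-neighbour graph of `K`, with the potential `missing K`. -/
theorem isCompression_iff (K : Finset (Fin k → ℤ)) (ω : (Fin 2 → ℤ) × K → ℝ)
    (H : ellTwo K →L[ℂ] ellTwo K) :
    IsCompression K ω H ↔ IsAnderson (nearest K) (missing K) ω H := by
  unfold IsCompression IsAnderson
  refine forall_congr' fun u => forall_congr' fun x => forall_congr' fun f => ?_
  have h := Pool.Agent.Lib.MP_562b47_mp.SYG.comp_eq (u : (Fin 2 → ℤ) × K → ℂ) x f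
  have h' : -∑ i : Fin (2 + k), ((ext u (Fin.append x f.1 + Pi.single i 1) - u (x, f)) +
      (ext u (Fin.append x f.1 - Pi.single i 1) - u (x, f))) =
      -∑ i : Fin 2, ((u (x + Pi.single i 1, f) - u (x, f)) +
        (u (x - Pi.single i 1, f) - u (x, f)))
      - ∑ g : K, (if (nearest K).Adj f g then u (x, g) - u (x, f) else 0)
      + (missing K f : ℂ) * u (x, f) := h
  unfold planeLap graphLap
  rw [h', add_mul, ← add_assoc]

end compression

/-- For every finite connected graph `G`, every potential `W` on its vertices, every `c > 0` and almost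
every `ω` (independent coordinates, uniform on `[-c, c]`), the Anderson operator on `ℤ² × G` is bounded
and self-adjoint and has purely singular spectrum. -/
theorem result {V : Type} [Fintype V] (G : SimpleGraph V) [DecidableRel G.Adj] (hG : G.Connected)
    (W : V → ℝ) (c : ℝ) (hc : 0 < c) :
    ∀ᵐ ω ∂(potLaw V c), ∃ H : ellTwo V →L[ℂ] ellTwo V,
      IsAnderson G W ω H ∧ IsSelfAdjoint H ∧ PurelySingular H :=
  Pool.Agent.Lib.MP_562b47_mp.SYG.graph_sing G hG W hc

end Pool.Agent.Results.MP_562b47_mp.PlaneTimesGraph
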