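import Mathlib
import Pool.Agent.Lib.MP_562b47_mp.ED.Main
import Pool.Agent.Lib.MP_562b47_mp.WindowB
import Pool.Agent.Lib.MP_562b47_mp.TR.Quen

/-!
The Anderson model on `ℤ^d` with uniformly distributed potential, `d ≥ 3`, at an arbitrary disorder
strength `c > 0`.  The absolutely continuous spectrum is carried by the energies at which the
transport is transient in the sense of Pólya: almost surely, the density of every spectral measure
vanishes at Lebesgue-almost every energy which is not transient.  Transience is measured by the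
number of sites which carry some given fraction of `(Δ_ω - E - iη)⁻¹ δ_0`, with some given positive
probability.  In particular the density vanishes, almost surely, at almost every energy where
`O(N₀(η))` sites carry a positive fraction at the scale `η`, if `∫_0 dη / (η² N₀(η)) = ∞`.

The Hilbert space `ℓ²(ℤ^d)` is given as a complex Hilbert space `V` with a Hilbert basis
`(b j)`, `j ∈ ℤ^d` (for `V = ℓ²(ℤ^d)`: `b j` is the unit vector `δ_j`).
-/

open MeasureTheory Complex Filter Topology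
open scoped InnerProductSpace ENNReal

namespace Pool.Agent.Results.MP_562b47_mp.TransientSpectrum

/-- The uniform distribution on `[-c, c]`. -/
noncomputable def unifLaw (c : ℝ) : Measure ℝ :=
  (ENNReal.ofReal (2 * c))⁻¹ • volume.restrict (Set.Icc (-c) c)

/-- The law of the random potential `(ω_j)`, `j ∈ ℤ^d`: independent coordinates, each uniformly
distributed on `[-c, c]`. -/
noncomputable def potLaw (d : ℕ) (c : ℝ) : Measure ((Fin d → ℤ) → ℝ) :=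
  Measure.infinitePi fun _ => unifLaw c

/-- `H` is the operator `Δ_ω` on the Hilbert space with orthonormal basis `b j = δ_j`, `j ∈ ℤ^d`:
`H δ_j = - ∑_{|n| = 1} (δ_{j + n} - δ_j) + ω_j δ_j`. -/
def IsDelta {d : ℕ} {V : Type*} [NormedAddCommGroup V] [InnerProductSpace ℂ V]
    (b : HilbertBasis (Fin d → ℤ) ℂ V) (ω : (Fin d → ℤ) → ℝ) (H : V →L[ℂ] V) : Prop :=
  ∀ j : Fin d → ℤ, H (b j) = -∑ i : Fin d, ((b (j + Pi.single i 1) - b j)
    + (b (j - Pi.single i 1) - b j)) + (ω j : ℂ) • b j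

/-- `μ` is the spectral measure of the vector `u` for the bounded self-adjoint operator `H`: it is
finite and `∫ f dμ = ⟨u, f(H) u⟩` for all bounded continuous `f : ℝ → ℝ`. -/
def IsSpectralMeasure {V : Type*} [NormedAddCommGroup V] [InnerProductSpace ℂ V] [CompleteSpace V]
    (H : V →L[ℂ] V) (u : V) (μ : Measure ℝ) : Prop :=
  IsFiniteMeasure μ ∧
    ∀ f : BoundedContinuousFunction ℝ ℝ, ((∫ x, f x ∂μ : ℝ) : ℂ) = ⟪u, cfc (⇑f) H u⟫_ℂ

/-- The Green function `⟨δ_x, (H - z)⁻¹ δ_0⟩` (`H` self-adjoint, `z` not real: then `H - z` is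
invertible). -/
noncomputable def green {d : ℕ} {V : Type*} [NormedAddCommGroup V] [InnerProductSpace ℂ V]
    [CompleteSpace V] (b : HilbertBasis (Fin d → ℤ) ℂ V) (H : V →L[ℂ] V) (z : ℂ)
    (x : Fin d → ℤ) : ℂ :=
  ⟪b x, Ring.inverse (H - z • (1 : V →L[ℂ] V)) (b 0)⟫_ℂ

/-- The number of sites at the energy `E` and the scale `η`: the least number of points in the ball
`|x| ≤ R / √η` of a set `S ⊆ ℤ^d` (finite or infinite) which carries the fraction `θ` of the mass,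
`∑_{x ∈ S} |⟨δ_x, (H - E - iη)⁻¹ δ_0⟩|² ≥ θ ∑_x |⟨δ_x, (H - E - iη)⁻¹ δ_0⟩|²`. -/
noncomputable def siteCount {d : ℕ} {V : Type*} [NormedAddCommGroup V] [InnerProductSpace ℂ V]
    [CompleteSpace V] (b : HilbertBasis (Fin d → ℤ) ℂ V) (H : V →L[ℂ] V) (θ R E η : ℝ) : ℝ≥0∞ :=
  ⨅ (S : Set (Fin d → ℤ)) (_ : ENNReal.ofReal θ * ∑' x : Fin d → ℤ, ‖green b H ⟨E, η⟩ x‖ₑ ^ 2
      ≤ ∑' x : {x : Fin d → ℤ // x ∈ S}, ‖green b H ⟨E, η⟩ x‖ₑ ^ 2),
    ((S ∩ {x | ∑ i, (x i : ℝ) ^ 2 ≤ (R / √η) ^ 2}).ncard : ℝ≥0∞)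

/-- The `p`-quantile of the number of sites: the least `n` such that, with probability at least
`p`, the number of sites is at most `n` (`∞` if there is no such `n`). -/
noncomputable def siteQuantile {d : ℕ} {V : Type*} [NormedAddCommGroup V] [InnerProductSpace ℂ V]
    [CompleteSpace V] (c : ℝ) (b : HilbertBasis (Fin d → ℤ) ℂ V)
    (Δ : ((Fin d → ℤ) → ℝ) → (V →L[ℂ] V)) (p θ R E η : ℝ) : ℝ≥0∞ :=
  ⨅ (n : ℕ) (_ : ENNReal.ofReal p ≤ potLaw d c {ω | siteCount b (Δ ω) θ R E η ≤ n}), (n : ℝ≥0∞)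

/-- The energy `E` is transient: for all `θ, p > 0`, however small, there are `R, a > 0` with
`∫_0^a dη / (η² N(η)) < ∞`, where `N(η) = siteQuantile p θ R E η`. -/
def Transient {d : ℕ} {V : Type*} [NormedAddCommGroup V] [InnerProductSpace ℂ V]
    [CompleteSpace V] (c : ℝ) (b : HilbertBasis (Fin d → ℤ) ℂ V)
    (Δ : ((Fin d → ℤ) → ℝ) → (V →L[ℂ] V)) (E : ℝ) : Prop :=
  ∀ θ : ℝ, 0 < θ → ∀ p : ℝ, 0 < p → ∃ R a : ℝ, 0 < R ∧ 0 < a ∧
    ∫⁻ η in Set.Ioo 0 a, ENNReal.ofReal (1 / η ^ 2) * (siteQuantile c b Δ p θ R E η)⁻¹ < ⊤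

/-- For the operator `H` and the energy `E` some positive fraction is carried by `O(N₀(η))` sites as
`η → 0`: for some `θ > 0` and every `R > 0` there are `C, a > 0` with
`siteCount θ R E η ≤ C N₀(η)` for almost every `η ∈ (0, a)`. -/
def FewSites {d : ℕ} {V : Type*} [NormedAddCommGroup V] [InnerProductSpace ℂ V]
    [CompleteSpace V] (b : HilbertBasis (Fin d → ℤ) ℂ V) (H : V →L[ℂ] V) (N₀ : ℝ → ℝ≥0∞)
    (E : ℝ) : Prop :=
  ∃ θ : ℝ, 0 < θ ∧ ∀ R : ℝ, 0 < R → ∃ C a : ℝ, 0 < a ∧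
    ∀ᵐ η ∂(volume.restrict (Set.Ioo 0 a)), siteCount b H θ R E η ≤ ENNReal.ofReal C * N₀ η

/-- Let `d ≥ 3` and `c > 0`.  The family `Δ_ω` exists (almost surely, as bounded self-adjoint
operators).  Almost surely the density of the spectral measure of every vector vanishes at
Lebesgue-almost every energy which is not transient.  If `∫_0^a dη / (η² N₀(η)) = ∞` for all
`a > 0` then, almost surely, the density of the spectral measure of every vector vanishes at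
Lebesgue-almost every energy at which `O(N₀(η))` sites carry some positive fraction. -/
theorem result (d : ℕ) (hd : 3 ≤ d) (c : ℝ) (hc : 0 < c) {V : Type*} [NormedAddCommGroup V]
    [InnerProductSpace ℂ V] [CompleteSpace V] (b : HilbertBasis (Fin d → ℤ) ℂ V) :
    (∃ Δ : ((Fin d → ℤ) → ℝ) → (V →L[ℂ] V),
      ∀ᵐ ω ∂(potLaw d c), IsDelta b ω (Δ ω) ∧ IsSelfAdjoint (Δ ω)) ∧
    ∀ Δ : ((Fin d → ℤ) → ℝ) → (V →L[ℂ] V), (∀ᵐ ω ∂(potLaw d c), IsDelta b ω (Δ ω)) →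
      (∀ᵐ ω ∂(potLaw d c), ∀ (u : V) (μ : Measure ℝ), IsSpectralMeasure (Δ ω) u μ →
        ∀ᵐ E ∂(volume : Measure ℝ), Transient c b Δ E ∨ μ.rnDeriv volume E = 0) ∧
      ∀ N₀ : ℝ → ℝ≥0∞, Measurable N₀ →
        (∀ a : ℝ, 0 < a → ∫⁻ η in Set.Ioo 0 a, ENNReal.ofReal (1 / η ^ 2) * (N₀ η)⁻¹ = ⊤) →
        ∀ᵐ ω ∂(potLaw d c), ∀ (u : V) (μ : Measure ℝ), IsSpectralMeasure (Δ ω) u μ →
          ∀ᵐ E ∂(volume : Measure ℝ), FewSites b (Δ ω) N₀ E → μ.rnDeriv volume E = 0 := by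
  have hIcc := Pool.Agent.Lib.MP_562b47_mp.ae_mem_Icc (d := d) hc
  refine ⟨⟨Pool.Agent.Lib.MP_562b47_mp.HB b c, ?_⟩, fun Δ hΔ => ?_⟩
  · filter_upwards [hIcc] with ω hω
    exact ⟨Pool.Agent.Lib.MP_562b47_mp.HB_basis' b hω,
      Pool.Agent.Lib.MP_562b47_mp.isSelfAdjoint_HB b hc ω⟩
  have hae : ∀ᵐ ω ∂(potLaw d c), Δ ω = Pool.Agent.Lib.MP_562b47_mp.HB b c ω := by
    filter_upwards [hIcc, hΔ] with ω hω h2
    refine Pool.Agent.Lib.MP_562b47_mp.eq_HB_of_basis b fun j => ?_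
    rw [Pool.Agent.Lib.MP_562b47_mp.HB_basis' b hω]
    exact h2 j
  have hgr : ∀ (ω : (Fin d → ℤ) → ℝ) (E η : ℝ) (x : Fin d → ℤ), 0 < η →
      green b (Pool.Agent.Lib.MP_562b47_mp.HB b c ω) ⟨E, η⟩ x
      = Pool.Agent.Lib.MP_562b47_mp.Gr (Pool.Agent.Lib.MP_562b47_mp.ee d)
        (Pool.Agent.Lib.MP_562b47_mp.HH d c) ω ⟨E, η⟩ 0 x := by
    intro ω E η x hη
    have hz : 0 < (⟨E, η⟩ : ℂ).im := hη
    have h1 : green b (Pool.Agent.Lib.MP_562b47_mp.HB b c ω) ⟨E, η⟩ x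
        = ⟪b x, Pool.Agent.Lib.MP_562b47_mp.Rv
          (Pool.Agent.Lib.MP_562b47_mp.HB b c ω) ⟨E, η⟩ (b 0)⟫_ℂ := by
      unfold green Pool.Agent.Lib.MP_562b47_mp.Rv
      rw [Algebra.algebraMap_eq_smul_one]
    rw [h1, ← b.repr.inner_map_map, Pool.Agent.Lib.MP_562b47_mp.Rv_HB b hc ω hz.ne',
      Pool.Agent.Lib.MP_562b47_mp.repr_b, Pool.Agent.Lib.MP_562b47_mp.repr_b,
      (Pool.Agent.Lib.MP_562b47_mp.model hc).Gr_symm ω hz 0 x]
    rfl
  have hsc : ∀ (ω : (Fin d → ℤ) → ℝ) (θ R E η : ℝ), 0 < η →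
      siteCount b (Pool.Agent.Lib.MP_562b47_mp.HB b c ω) θ R E η
      = Pool.Agent.Lib.MP_562b47_mp.TR.sr d c ω (R / √η) θ E η := by
    intro ω θ R E η hη
    unfold siteCount Pool.Agent.Lib.MP_562b47_mp.TR.sr
    simp_rw [hgr ω E η _ hη]
    rfl
  have hq : ∀ p θ R E η : ℝ, 0 < η → siteQuantile c b Δ p θ R E η
      = Pool.Agent.Lib.MP_562b47_mp.TR.NR d c (R / √η) p θ E η := by
    intro p θ R E η hη
    unfold siteQuantile Pool.Agent.Lib.MP_562b47_mp.TR.NR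
    have h1 : ∀ n : ℕ, potLaw d c {ω | siteCount b (Δ ω) θ R E η ≤ n}
        = (Pool.Agent.Lib.MP_562b47_mp.PP (Fin d → ℤ) c)
          {ω | Pool.Agent.Lib.MP_562b47_mp.TR.sr d c ω (R / √η) θ E η ≤ n} := by
      intro n
      refine measure_congr ?_
      filter_upwards [hae] with ω hω
      refine propext ?_
      change siteCount b (Δ ω) θ R E η ≤ n ↔
        Pool.Agent.Lib.MP_562b47_mp.TR.sr d c ω (R / √η) θ E η ≤ n
      rw [hω, hsc ω θ R E η hη]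
    simp_rw [h1]
  obtain ⟨K, hK, hDE⟩ := Pool.Agent.Lib.MP_562b47_mp.ED.de_all (d := d) hc (by omega)
  have hDE' : ∀ u η : ℝ, 0 < η → η ≤ 1 → Pool.Agent.Lib.MP_562b47_mp.QL.DE d c ⟨u, η⟩
      ≤ ENNReal.ofReal (K / η ^ 2) := by
    intro u η h0 h1
    refine (hDE u η h0 h1).trans (ENNReal.ofReal_le_ofReal ?_)
    refine div_le_div_of_nonneg_left hK (by positivity) ?_
    nlinarith [mul_nonneg (sq_nonneg η) (sq_nonneg u)]
  obtain ⟨P, hPm, hP1, hP2⟩ := Pool.Agent.Lib.MP_562b47_mp.TR.final2 b hc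
  have hP3 : ∀ᵐ s ∂(volume : Measure ℝ), s ∈ P → ∀ θ : ℝ, 0 < θ → ∀ p : ℝ, 0 < p →
      ∃ R a : ℝ, 0 < R ∧ 0 < a ∧ ∫⁻ η in Set.Ioo 0 a, ENNReal.ofReal (1 / η ^ 2) *
        (Pool.Agent.Lib.MP_562b47_mp.TR.NR d c (R / √η) p θ s η)⁻¹ < ⊤ := by
    filter_upwards [hP1] with s hs hsP θ hθ p hp
    exact Pool.Agent.Lib.MP_562b47_mp.TR.rel_fin hc hK hDE' (hs hsP).1 (hs hsP).2 hp hθ
  have hden : ∀ (μ : Measure ℝ) (E : ℝ), μ.rnDeriv volume E < ⊤ →
      Pool.Agent.Lib.MP_562b47_mp.Dens μ E = 0 → μ.rnDeriv volume E = 0 := by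
    intro μ E h5 h6
    unfold Pool.Agent.Lib.MP_562b47_mp.Dens at h6
    have h7 := (mul_eq_zero.mp h6).resolve_left Real.pi_ne_zero
    rcases (ENNReal.toReal_eq_zero_iff _).mp h7 with h | h
    · exact h
    · exact absurd h h5.ne
  refine ⟨?_, fun N₀ hN hdiv => ?_⟩
  · filter_upwards [hP2, hae] with ω h1 h2 u μ hμ
    rw [h2] at hμ
    have := hμ.1
    have h3 := h1 u μ hμ.1 hμ.2
    unfold Pool.Agent.Lib.MP_562b47_mp.QL.NoAC at h3
    rw [ae_restrict_iff' hPm.compl] at h3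
    filter_upwards [h3, hP3, Measure.rnDeriv_lt_top μ volume] with E h4 h8 h5
    by_cases hE : E ∈ P
    · left
      intro θ hθ p hp
      obtain ⟨R, a, hR, ha, h⟩ := h8 hE θ hθ p hp
      refine ⟨R, a, hR, ha, lt_of_le_of_lt (le_of_eq ?_) h⟩
      refine setLIntegral_congr_fun measurableSet_Ioo fun η hη => ?_
      rw [hq p θ R E η hη.1]
    · exact Or.inr (hden μ E h5 (h4 hE))
  · filter_upwards [Pool.Agent.Lib.MP_562b47_mp.TR.quen b hc hPm hP3 hP2 hN hdiv, hae]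
      with ω h1 h2 u μ hμ
    rw [h2] at hμ ⊢
    have := hμ.1
    filter_upwards [h1 u μ hμ.1 hμ.2, Measure.rnDeriv_lt_top μ volume] with E h3 h5 h6
    refine hden μ E h5 (h3 ?_)
    obtain ⟨θ, hθ, h6⟩ := h6
    obtain ⟨l, hl⟩ := exists_nat_one_div_lt hθ
    refine ⟨l, fun j => ?_⟩
    obtain ⟨C, a, ha, h7⟩ := h6 ((j:ℝ) + 1) (by positivity)
    obtain ⟨m, hm⟩ := exists_nat_ge C
    obtain ⟨k, hk⟩ := exists_nat_one_div_lt ha
    have hle : (1:ℝ) / (((max m k : ℕ) : ℝ) + 1) ≤ a := by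
      refine le_trans ?_ hk.le
      have : (k:ℝ) ≤ ((max m k : ℕ) : ℝ) := by exact_mod_cast le_max_right m k
      gcongr
    refine ⟨max m k, ?_⟩
    have h8 : ∀ᵐ η ∂(volume.restrict (Set.Ioo 0 ((1:ℝ) / (((max m k : ℕ) : ℝ) + 1)))),
        siteCount b (Pool.Agent.Lib.MP_562b47_mp.HB b c ω) θ ((j:ℝ) + 1) E η
          ≤ ENNReal.ofReal C * N₀ η :=
      ae_restrict_of_ae_restrict_of_subset (Set.Ioo_subset_Ioo_right hle) h7
    have h9 : ∀ᵐ η ∂(volume.restrict (Set.Ioo 0 ((1:ℝ) / (((max m k : ℕ) : ℝ) + 1)))),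
        η ∈ Set.Ioo (0:ℝ) ((1:ℝ) / (((max m k : ℕ) : ℝ) + 1)) :=
      ae_restrict_mem measurableSet_Ioo
    change ∀ᵐ η ∂(volume.restrict (Set.Ioo 0 ((1:ℝ) / (((max m k : ℕ) : ℝ) + 1)))),
      Pool.Agent.Lib.MP_562b47_mp.TR.cs d c ω ((j:ℝ) + 1) (1 / ((l:ℝ) + 1)) E η
        ≤ ((max m k + 1 : ℕ) : ℝ≥0∞) * N₀ η
    filter_upwards [h8, h9] with η h10 h11
    rw [hsc ω _ _ E η h11.1] at h10
    have h12 : Pool.Agent.Lib.MP_562b47_mp.TR.cs d c ω ((j:ℝ) + 1) (1 / ((l:ℝ) + 1)) E η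
        ≤ Pool.Agent.Lib.MP_562b47_mp.TR.cs d c ω ((j:ℝ) + 1) θ E η :=
      Pool.Agent.Lib.MP_562b47_mp.TR.cs_mono (by positivity) le_rfl hl.le h11.1
    refine h12.trans (le_trans h10 (mul_le_mul' ?_ le_rfl))
    rw [← ENNReal.ofReal_natCast]
    refine ENNReal.ofReal_le_ofReal (hm.trans ?_)
    have : m ≤ max m k + 1 := (le_max_left m k).trans (Nat.le_succ _)
    exact_mod_cast this

end Pool.Agent.Results.MP_562b47_mp.TransientSpectrum
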